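/-
MP_0960bd_co.LargeDimensions.  The periodic tiling conjecture fails for topological balls in every
sufficiently large dimension.  The definitions of the statement are all in this file and follow problem.md
literally; the proof is in Pool/Agent/Lib/MP_0960bd_co and Pool/Agent/Lib/MP_0960bd_co_h68.
-/
import Mathlib
import Pool.Agent.Lib.MP_0960bd_co_h68.Dims

set_option autoImplicit false

namespace Pool.Agent.Results.MP_0960bd_co.LargeDimensions

open MeasureTheory

/-- `F` is a topological ball: it is homeomorphic to the closed unit ball of `ℝ^d` -/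
def IsTopologicalBall {d : ℕ} (F : Set (EuclideanSpace ℝ (Fin d))) : Prop :=
  Nonempty (F ≃ₜ Metric.closedBall (0 : EuclideanSpace ℝ (Fin d)) 1)

/-- the translate `F + t` -/
def translate {d : ℕ} (F : Set (EuclideanSpace ℝ (Fin d))) (t : EuclideanSpace ℝ (Fin d)) :
    Set (EuclideanSpace ℝ (Fin d)) := {x | ∃ y ∈ F, x = y + t}

/-- `T` is a tiling set for `F`: the translates `F + t`, `t ∈ T`, cover `ℝ^d` and pairwise intersect
in sets of Lebesgue measure zero -/
def IsTilingSet {d : ℕ} (F T : Set (EuclideanSpace ℝ (Fin d))) : Prop :=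
  (∀ x, ∃ t ∈ T, x ∈ translate F t) ∧
    ∀ s ∈ T, ∀ t ∈ T, s ≠ t → volume (translate F s ∩ translate F t) = 0

/-- `F` tiles `ℝ^d` by translations: it is bounded, measurable, of positive measure, and has a tiling set -/
def IsTile {d : ℕ} (F : Set (EuclideanSpace ℝ (Fin d))) : Prop :=
  Bornology.IsBounded F ∧ MeasurableSet F ∧ 0 < volume F ∧ ∃ T, IsTilingSet F T

/-- `T` is periodic: there is a lattice `L` of rank `d` (a discrete subgroup which spans `ℝ^d`) with
`T + v = T` for all `v ∈ L` -/
def IsPeriodic {d : ℕ} (T : Set (EuclideanSpace ℝ (Fin d))) : Prop :=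
  ∃ L : AddSubgroup (EuclideanSpace ℝ (Fin d)), DiscreteTopology L ∧
    Submodule.span ℝ (L : Set (EuclideanSpace ℝ (Fin d))) = ⊤ ∧ ∀ v ∈ L, translate T v = T

/-- In every sufficiently large dimension there is a topological ball, equal to the closure of its interior,
which tiles `ℝ^d` by translations but has no periodic tiling set. -/
theorem result : ∃ d₀ : ℕ, ∀ d : ℕ, d₀ ≤ d → ∃ F : Set (EuclideanSpace ℝ (Fin d)),
    IsTopologicalBall F ∧ closure (interior F) = F ∧ IsTile F ∧
      ∀ T, IsTilingSet F T → ¬ IsPeriodic T := by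
  obtain ⟨m₀, hm₀⟩ := Pool.Agent.BallTile.discreteAt_large
  refine ⟨m₀ + 3, fun d hd => ?_⟩
  obtain ⟨F, hball, hc, hreg, hne, ⟨Λ, hΛ⟩, hno⟩ :=
    Pool.Agent.BallTile.geometryAt (hm₀ (d - 3) (by omega)) (d := d) (by omega)
  have htr : ∀ t : EuclideanSpace ℝ (Fin d), translate F t = (fun x => x + -t) ⁻¹' F := by
    intro t
    ext x
    constructor
    · rintro ⟨y, hy, rfl⟩
      simpa using hy
    · intro h
      exact ⟨x + -t, h, by simp⟩
  have hmem : ∀ x t : EuclideanSpace ℝ (Fin d), x ∈ translate F t ↔ x - t ∈ F := by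
    intro x t
    rw [htr, Set.mem_preimage, sub_eq_add_neg]
  have hpos : 0 < volume F := by
    have h1 : (interior F).Nonempty := by
      by_contra h
      rw [Set.not_nonempty_iff_eq_empty] at h
      rw [h, closure_empty] at hreg
      exact hne.ne_empty (Set.subset_empty_iff.1 hreg)
    exact (isOpen_interior.measure_pos volume h1).trans_le (measure_mono interior_subset)
  refine ⟨F, hball, (hc.isClosed.closure_interior_subset).antisymm hreg,
    ⟨hc.isBounded, hc.measurableSet, hpos, Λ, ?_, ?_⟩, ?_⟩
  · intro x
    obtain ⟨t, ht, h⟩ := Pool.Agent.BallTile.cover_all volume hreg hΛ hc hne x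
    exact ⟨t, ht, (hmem x t).2 h⟩
  · intro s hs t ht hst
    refine measure_mono_null ?_ (ae_iff.1 hΛ)
    rintro x ⟨h1, h2⟩
    simp only [Set.mem_ofPred_eq]
    rintro ⟨u, _, hu⟩
    exact hst ((hu s ⟨hs, (hmem x s).1 h1⟩).trans (hu t ⟨ht, (hmem x t).1 h2⟩).symm)
  · rintro T ⟨hcov, hdisj⟩ ⟨L, -, hspan, hper⟩
    have hvol : ∀ t, volume (translate F t) = volume F := fun t => by
      rw [htr, measure_preimage_add_right]
    have hcount : T.Countable := by
      have h1 := Measure.countable_meas_pos_of_disjoint_iUnion₀ (μ := (volume : Measure (EuclideanSpace ℝ (Fin d))))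
        (As := fun t : T => translate F t) (fun t => by
          rw [htr]
          exact ((measurable_id.add_const _) hc.measurableSet).nullMeasurableSet)
        (fun s t hst => hdisj s s.2 t t.2 (fun h => hst (Subtype.ext h)))
      have h2 : {t : T | 0 < volume (translate F (t : EuclideanSpace ℝ (Fin d)))} = Set.univ := by
        ext t
        simp [hvol, hpos]
      rw [h2] at h1
      exact Set.countable_coe_iff.1 (Set.countable_univ_iff.1 h1)
    apply hno
    refine ⟨T, ?_, ?_⟩
    · have hnull : volume (⋃ s ∈ T, ⋃ t ∈ T, {x | s ≠ t ∧ x ∈ translate F s ∩ translate F t}) = 0 := by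
        refine (measure_biUnion_null_iff hcount).2 fun s hs =>
          (measure_biUnion_null_iff hcount).2 fun t ht => ?_
        by_cases hst : s = t
        · simp [hst]
        · exact measure_mono_null (fun x hx => hx.2) (hdisj s hs t ht hst)
      rw [ae_iff]
      refine measure_mono_null ?_ hnull
      intro x hx
      simp only [Set.mem_ofPred_eq] at hx
      obtain ⟨t, ht, hxt⟩ := hcov x
      by_contra hcon
      apply hx
      refine ⟨t, ⟨ht, (hmem x t).1 hxt⟩, ?_⟩
      rintro s ⟨hs, hxs⟩
      by_contra hst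
      apply hcon
      simp only [Set.mem_iUnion]
      exact ⟨s, hs, t, ht, hst, (hmem x s).2 hxs, hxt⟩
    · obtain ⟨b, hbL, hbspan, hbind⟩ := exists_linearIndependent ℝ (L : Set (EuclideanSpace ℝ (Fin d)))
      let B : Module.Basis b ℝ (EuclideanSpace ℝ (Fin d)) := Module.Basis.mk hbind (by
        rw [Subtype.range_coe, hbspan, hspan])
      have : Fintype b := FiniteDimensional.fintypeBasisIndex B
      have hcard : Fintype.card b = d := by
        have := Module.finrank_eq_card_basis B
        rw [finrank_euclideanSpace_fin] at this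
        exact this.symm
      let e : Fin d ≃ b := (Fintype.equivFinOfCardEq hcard).symm
      refine ⟨fun i => (e i : EuclideanSpace ℝ (Fin d)), hbind.comp e e.injective, ?_⟩
      intro i t ht
      have h1 := hper (e i : EuclideanSpace ℝ (Fin d)) (hbL (e i).2)
      constructor
      · rw [← h1]
        exact ⟨t, ht, rfl⟩
      · rw [← h1] at ht
        obtain ⟨y, hy, rfl⟩ := ht
        simpa using hy

end Pool.Agent.Results.MP_0960bd_co.LargeDimensions
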